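import Pool.Agent.V11218.KR

/-!
# The countable power of the Arens space is not a `k_ℝ`-space
-/

namespace Pool.Agent.Results.MP_d55beb_gt.ArensPower

open Set

/-- The Arens space: the point `inf`, the points `a n` and the points `b n m`. -/
inductive Arens where
  | inf : Arens
  | a : ℕ → Arens
  | b : ℕ → ℕ → Arens

/-- The topology of the Arens space: a set `U` is open iff whenever `a n ∈ U` then
`b n m ∈ U` for all large `m`, and whenever `inf ∈ U` then `a n ∈ U` for all large `n`. -/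
instance : TopologicalSpace Arens where
  IsOpen U := (Arens.inf ∈ U → ∃ k, ∀ n, k ≤ n → Arens.a n ∈ U) ∧
    ∀ n, Arens.a n ∈ U → ∃ k, ∀ m, k ≤ m → Arens.b n m ∈ U
  isOpen_univ := ⟨fun _ => ⟨0, fun _ _ => mem_univ _⟩, fun _ _ => ⟨0, fun _ _ => mem_univ _⟩⟩
  isOpen_inter := by
    rintro s t ⟨hs, hs'⟩ ⟨ht, ht'⟩
    refine ⟨fun h => ?_, fun n h => ?_⟩
    · obtain ⟨k, hk⟩ := hs h.1
      obtain ⟨l, hl⟩ := ht h.2
      exact ⟨max k l, fun n hn =>
        ⟨hk n (le_trans (le_max_left _ _) hn), hl n (le_trans (le_max_right _ _) hn)⟩⟩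
    · obtain ⟨k, hk⟩ := hs' n h.1
      obtain ⟨l, hl⟩ := ht' n h.2
      exact ⟨max k l, fun n hn =>
        ⟨hk n (le_trans (le_max_left _ _) hn), hl n (le_trans (le_max_right _ _) hn)⟩⟩
  isOpen_sUnion := by
    intro T hT
    refine ⟨fun h => ?_, fun n h => ?_⟩
    · obtain ⟨s, hs, hx⟩ := h
      obtain ⟨k, hk⟩ := (hT s hs).1 hx
      exact ⟨k, fun n hn => ⟨s, hs, hk n hn⟩⟩
    · obtain ⟨s, hs, hx⟩ := h
      obtain ⟨k, hk⟩ := (hT s hs).2 n hx
      exact ⟨k, fun n hn => ⟨s, hs, hk n hn⟩⟩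

theorem isOpen_def {U : Set Arens} :
    IsOpen U ↔ ((Arens.inf ∈ U → ∃ k, ∀ n, k ≤ n → Arens.a n ∈ U) ∧
      ∀ n, Arens.a n ∈ U → ∃ k, ∀ m, k ≤ m → Arens.b n m ∈ U) := Iff.rfl

/-- The `k_ℝ`-property: every real-valued function that is continuous on all compact
sets is continuous. -/
def IsKRSpace (X : Type*) [TopologicalSpace X] : Prop :=
  ∀ f : X → ℝ, (∀ K : Set X, IsCompact K → ContinuousOn f K) → Continuous f

theorem compact_bound (K : Set Arens) (hK : IsCompact K) :
    ∃ N, ∀ n m, Arens.b n m ∈ K → n ≤ N := by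
  classical
  by_contra hcon
  push Not at hcon
  choose a b hmem hgt using hcon
  let V : ℕ → Set Arens := fun N => {x | ∀ M, N ≤ M → x ≠ Arens.b (a M) (b M)}
  have hV : ∀ N, IsOpen (V N) := by
    intro N
    rw [isOpen_def]
    refine ⟨fun _ => ⟨0, fun n _ M _ h => by simp at h⟩, fun n _ => ?_⟩
    refine ⟨((Finset.range (n + 1)).sup b) + 1, fun m hm M _ h => ?_⟩
    have h1 : n = a M ∧ m = b M := by simpa using h
    have h2 : M < n := by rw [h1.1]; exact hgt M
    have h3 : b M ≤ (Finset.range (n + 1)).sup b :=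
      Finset.le_sup (f := b) (by simp; omega)
    have h4 := h1.2
    omega
  have hcov : K ⊆ ⋃ N, V N := by
    intro x _
    rw [mem_iUnion]
    cases x with
    | inf => exact ⟨0, fun M _ h => by simp at h⟩
    | a n => exact ⟨0, fun M _ h => by simp at h⟩
    | b n m =>
      refine ⟨n + 1, fun M hM h => ?_⟩
      have h1 : n = a M ∧ m = b M := by simpa using h
      have h2 : M < n := by rw [h1.1]; exact hgt M
      omega
  have hdir : Directed (· ⊆ ·) V := by
    intro M N
    exact ⟨max M N, fun x hx L hL => hx L (le_trans (le_max_left _ _) hL),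
      fun x hx L hL => hx L (le_trans (le_max_right _ _) hL)⟩
  obtain ⟨N, hN⟩ := hK.elim_directed_cover V hV hcov hdir
  exact hN (hmem N) N le_rfl rfl

theorem result : ¬ IsKRSpace (ℕ → Arens) := by
  intro h
  obtain ⟨f, hf, hnc⟩ := Pool.Agent.V11218.KR.exists_function Arens.b Arens.inf
    (by intro a b a' b' h; simpa using h)
    (by intro a b; rw [isOpen_def]; exact ⟨fun h => by simp at h, fun n h => by simp at h⟩)
    (by intro a b h; simp at h)
    (by
      intro z hz f
      refine ⟨{x | ∀ n m, x = Arens.b n m → f n ≤ m}, ?_, ?_, ?_⟩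
      · rw [isOpen_def]
        refine ⟨fun _ => ⟨0, fun n _ n' m' h => by simp at h⟩, fun n _ => ⟨f n, ?_⟩⟩
        intro m hm n' m' h
        have h1 : n = n' ∧ m = m' := by simpa using h
        rw [← h1.1, ← h1.2]
        exact hm
      · intro n m h
        exact absurd h (hz n m)
      · intro n m h
        exact h n m rfl)
    (by
      intro V hV hin
      obtain ⟨k, hk⟩ := (isOpen_def.1 hV).1 hin
      have := (isOpen_def.1 hV).2
      have hch : ∀ n, ∃ l, k ≤ n → ∀ m, l ≤ m → Arens.b n m ∈ V := by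
        intro n
        by_cases hn : k ≤ n
        · obtain ⟨l, hl⟩ := this n (hk n hn)
          exact ⟨l, fun _ => hl⟩
        · exact ⟨0, fun h => absurd h hn⟩
      choose f hf using hch
      exact ⟨k, f, fun n m hn hm => hf n hn m hm⟩)
    compact_bound
  exact hnc (h f hf)

end Pool.Agent.Results.MP_d55beb_gt.ArensPower
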