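import Pool.Agent.V11218.KR

/-!
# The countable power of the sequential fan is not a `k_ℝ`-space
-/

namespace Pool.Agent.Results.MP_d55beb_gt.FanPower

open Set

/-- The sequential fan: the point `inf` and the points `pt n m`. -/
inductive Fan where
  | inf : Fan
  | pt : ℕ → ℕ → Fan

/-- The topology of the sequential fan: a set `U` is open iff either it omits `inf` or it
contains `pt n m` for all `n` and all `m ≥ f n`, for some `f : ℕ → ℕ`. -/
instance : TopologicalSpace Fan where
  IsOpen U := Fan.inf ∈ U → ∃ f : ℕ → ℕ, ∀ n m, f n ≤ m → Fan.pt n m ∈ U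
  isOpen_univ := fun _ => ⟨fun _ => 0, fun _ _ _ => mem_univ _⟩
  isOpen_inter := by
    intro s t hs ht h
    obtain ⟨f, hf⟩ := hs h.1
    obtain ⟨g, hg⟩ := ht h.2
    exact ⟨fun n => max (f n) (g n), fun n m hm =>
      ⟨hf n m (le_trans (le_max_left _ _) hm), hg n m (le_trans (le_max_right _ _) hm)⟩⟩
  isOpen_sUnion := by
    rintro T hT ⟨s, hs, hx⟩
    obtain ⟨f, hf⟩ := hT s hs hx
    exact ⟨f, fun n m hm => ⟨s, hs, hf n m hm⟩⟩

theorem isOpen_def {U : Set Fan} :
    IsOpen U ↔ (Fan.inf ∈ U → ∃ f : ℕ → ℕ, ∀ n m, f n ≤ m → Fan.pt n m ∈ U) := Iff.rfl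

/-- The `k_ℝ`-property: every real-valued function that is continuous on all compact
sets is continuous. -/
def IsKRSpace (X : Type*) [TopologicalSpace X] : Prop :=
  ∀ f : X → ℝ, (∀ K : Set X, IsCompact K → ContinuousOn f K) → Continuous f

theorem compact_bound (K : Set Fan) (hK : IsCompact K) : ∃ N, ∀ a b, Fan.pt a b ∈ K → a ≤ N := by
  classical
  by_contra hcon
  push Not at hcon
  -- for each `N` a point of `K` on a spoke above `N`
  choose a b hmem hgt using hcon
  -- the open cover indexed by `ℕ`
  let V : ℕ → Set Fan := fun N => {x | ∀ M, N ≤ M → x ≠ Fan.pt (a M) (b M)}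
  have hV : ∀ N, IsOpen (V N) := by
    intro N
    rw [isOpen_def]
    intro _
    refine ⟨fun n => ((Finset.range (n + 1)).sup b) + 1, fun n m hm M _ h => ?_⟩
    have h1 : n = a M ∧ m = b M := by simpa using h
    have h2 : M < n := by rw [h1.1]; exact hgt M
    have h3 : b M ≤ (Finset.range (n + 1)).sup b :=
      Finset.le_sup (f := b) (by simp; omega)
    have h4 := h1.2
    have hm' : (Finset.range (n + 1)).sup b + 1 ≤ m := hm
    omega
  have hcov : K ⊆ ⋃ N, V N := by
    intro x _
    rw [mem_iUnion]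
    cases x with
    | inf => exact ⟨0, fun M _ h => by simp at h⟩
    | pt n m =>
      refine ⟨n + 1, fun M hM h => ?_⟩
      have h1 : n = a M ∧ m = b M := by simpa using h
      have h2 : M < n := by rw [h1.1]; exact hgt M
      omega
  have hdir : Directed (· ⊆ ·) V := by
    intro M N
    exact ⟨max M N, fun x hx L hL => hx L (le_trans (le_max_left _ _) hL),
      fun x hx L hL => hx L (le_trans (le_max_right _ _) hL)⟩
  obtain ⟨N, hN⟩ := hK.elim_directed_cover V hV hcov hdir
  exact hN (hmem N) N le_rfl rfl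

theorem result : ¬ IsKRSpace (ℕ → Fan) := by
  intro h
  obtain ⟨f, hf, hnc⟩ := Pool.Agent.V11218.KR.exists_function Fan.pt Fan.inf
    (by intro a b a' b' h; simpa using h)
    (by intro a b; rw [isOpen_def]; intro h; simp at h)
    (by intro a b h; simp at h)
    (by
      intro z hz f
      cases z with
      | pt n m => exact absurd rfl (hz n m)
      | inf =>
        refine ⟨{Fan.inf} ∪ {x | ∃ n m, f n ≤ m ∧ x = Fan.pt n m}, ?_, Or.inl rfl, ?_⟩
        · rw [isOpen_def]
          exact fun _ => ⟨f, fun n m hm => Or.inr ⟨n, m, hm, rfl⟩⟩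
        · rintro a b (h | ⟨n, m, hm, h⟩)
          · simp at h
          · have h1 : a = n ∧ b = m := by simpa using h
            rw [h1.1, h1.2]
            exact hm)
    (by
      intro V hV hin
      obtain ⟨f, hf⟩ := isOpen_def.1 hV hin
      exact ⟨0, f, fun a b _ hb => hf a b hb⟩)
    compact_bound
  exact hnc (h f hf)

end Pool.Agent.Results.MP_d55beb_gt.FanPower
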